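import Mathlib

set_option autoImplicit false

open Matrix Finset

namespace Pool.Agent.Results.MP_6eb00f_an.UpperHalfFails

/-- `S_m(A_1, …, A_n)`: the sum of `A_{j_1} A_{j_2} ⋯ A_{j_m}` over all `m`-tuples of pairwise
distinct indices. -/
noncomputable def S {n d : ℕ} (m : ℕ) (A : Fin n → Matrix (Fin d) (Fin d) ℝ) :
    Matrix (Fin d) (Fin d) ℝ :=
  ∑ j : Fin m ↪ Fin n, (List.ofFn fun k : Fin m => A (j k)).prod

/-- Hypothesis (H): all `A_i` are (symmetric and) positive semidefinite, and
`A_1 + ⋯ + A_n ⪯ n I`. -/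
def HypH {n d : ℕ} (A : Fin n → Matrix (Fin d) (Fin d) ℝ) : Prop :=
  (∀ i, (A i).PosSemidef) ∧ ((n : ℝ) • (1 : Matrix (Fin d) (Fin d) ℝ) - ∑ i, A i).PosSemidef

/-- The integer matrices: `102` at `(i,i)`, `82` at the other diagonal places, `-27` at the other
places of row and column `i`, and `3` elsewhere. -/
noncomputable def M (i : Fin 20) : Matrix (Fin 20) (Fin 20) ℝ :=
  Matrix.of fun j k => (if j = k then 79 else 0) + 3 - 30 * (if j = i then 1 else 0)
    - 30 * (if k = i then 1 else 0) + 80 * ((if j = i then 1 else 0) * (if k = i then 1 else 0))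

lemma M_isHermitian (i : Fin 20) : (M i).IsHermitian := by
  ext j k
  simp only [M, conjTranspose_apply, of_apply, star_trivial, eq_comm (a := k) (b := j)]
  ring

lemma M_mulVec (i : Fin 20) (v : Fin 20 → ℝ) (j : Fin 20) :
    (M i *ᵥ v) j = 79 * v j + 3 * (∑ k, v k) - 30 * (if j = i then 1 else 0) * (∑ k, v k)
      - 30 * v i + 80 * (if j = i then 1 else 0) * v i := by
  simp only [mulVec, dotProduct, M, of_apply]
  have : ∀ k : Fin 20, ((if j = k then (79:ℝ) else 0) + 3 - 30 * (if j = i then 1 else 0)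
    - 30 * (if k = i then 1 else 0) + 80 * ((if j = i then 1 else 0) * (if k = i then 1 else 0))) * v k
    = 79 * (if j = k then v k else 0) + 3 * v k - 30 * (if j = i then 1 else 0) * v k
      - 30 * (if k = i then v k else 0) + 80 * (if j = i then 1 else 0) * (if k = i then v k else 0) := by
    intro k
    split_ifs <;> ring
  simp only [this, Finset.sum_add_distrib, Finset.sum_sub_distrib, ← Finset.mul_sum,
    Finset.sum_ite_eq, Finset.sum_ite_eq', Finset.mem_univ, if_true]

lemma M_posSemidef (i : Fin 20) : (M i).PosSemidef := by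
  apply Matrix.PosSemidef.of_dotProduct_mulVec_nonneg (M_isHermitian i)
  intro x
  have h1 : star x ⬝ᵥ (M i *ᵥ x) = 79 * (∑ k, x k ^ 2) + 3 * (∑ k, x k) ^ 2
      - 60 * x i * (∑ k, x k) + 80 * x i ^ 2 := by
    simp only [dotProduct, star_trivial, Pi.star_apply, M_mulVec]
    have : ∀ k : Fin 20, x k * (79 * x k + 3 * (∑ k, x k) - 30 * (if k = i then 1 else 0) * (∑ k, x k)
      - 30 * x i + 80 * (if k = i then 1 else 0) * x i) = 79 * x k ^ 2 + (3 * ∑ k, x k) * x k
        - (30 * ∑ k, x k) * (if k = i then x k else 0) - (30 * x i) * x k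
        + (80 * x i) * (if k = i then x k else 0) := by
      intro k
      split_ifs <;> ring
    rw [Finset.sum_congr rfl fun k _ => this k]
    simp only [Finset.sum_add_distrib, Finset.sum_sub_distrib, ← Finset.mul_sum,
      Finset.sum_ite_eq', Finset.mem_univ, if_true]
    ring
  rw [h1]
  set R : ℝ := ∑ k ∈ Finset.univ.erase i, x k with hR
  set Q : ℝ := ∑ k ∈ Finset.univ.erase i, x k ^ 2 with hQ
  have e1 : ∑ k, x k = x i + R := (Finset.add_sum_erase _ _ (Finset.mem_univ i)).symm
  have e2 : ∑ k, x k ^ 2 = x i ^ 2 + Q :=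
    (Finset.add_sum_erase _ (fun k => x k ^ 2) (Finset.mem_univ i)).symm
  have hCS : R ^ 2 ≤ 19 * Q := by
    have h := sq_sum_le_card_mul_sum_sq (s := Finset.univ.erase i) (f := x)
    have hc : (Finset.univ.erase i).card = 19 := by
      rw [Finset.card_erase_of_mem (Finset.mem_univ i)]; simp
    rw [hc] at h
    exact_mod_cast h
  rw [e1, e2]
  nlinarith [sq_nonneg (102 * x i - 27 * R), sq_nonneg R, hCS]

/-- The family of `n` matrices: the 20 matrices `M i / 83`, followed by identity matrices. -/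
noncomputable def fam (n : ℕ) (i : Fin n) : Matrix (Fin 20) (Fin 20) ℝ :=
  if h : (i : ℕ) < 20 then (1 / 83 : ℝ) • M ⟨i, h⟩ else 1

lemma fam_posSemidef (n : ℕ) (i : Fin n) : (fam n i).PosSemidef := by
  unfold fam
  split_ifs with h
  · exact (M_posSemidef _).smul (by norm_num)
  · exact PosSemidef.one

lemma sum_M : ∑ i, M i = (1660 : ℝ) • (1 : Matrix (Fin 20) (Fin 20) ℝ) := by
  ext j k
  rw [Matrix.sum_apply]
  simp only [M, of_apply, Matrix.smul_apply, one_apply, smul_eq_mul]
  have : ∀ i : Fin 20, (if j = k then (79:ℝ) else 0) + 3 - 30 * (if j = i then 1 else 0)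
    - 30 * (if k = i then 1 else 0) + 80 * ((if j = i then 1 else 0) * (if k = i then 1 else 0))
    = (if j = k then (79:ℝ) else 0) + 3 - 30 * (if j = i then 1 else 0)
    - 30 * (if k = i then 1 else 0) + 80 * (if k = i then (if j = i then 1 else 0) else 0) := by
    intro i
    split_ifs <;> ring
  simp only [this, Finset.sum_add_distrib, Finset.sum_sub_distrib, ← Finset.mul_sum,
    Finset.sum_ite_eq, Finset.mem_univ, if_true, Finset.sum_const, Finset.card_univ, Fintype.card_fin]
  by_cases hjk : j = k <;> simp [hjk] <;> norm_num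

lemma sum_fam (n : ℕ) (hn : 20 ≤ n) :
    ∑ i, fam n i = (n : ℝ) • (1 : Matrix (Fin 20) (Fin 20) ℝ) := by
  obtain ⟨k, rfl⟩ := Nat.exists_eq_add_of_le hn
  rw [Fin.sum_univ_add]
  have h1 : ∀ i : Fin 20, fam (20 + k) (Fin.castAdd k i) = (1 / 83 : ℝ) • M i := by
    intro i
    unfold fam
    rw [dif_pos (by simp)]
    rfl
  have h2 : ∀ i : Fin k, fam (20 + k) (Fin.natAdd 20 i) = 1 := by
    intro i
    unfold fam
    rw [dif_neg (by simp)]
  simp only [h1, h2, ← Finset.smul_sum, sum_M, Finset.sum_const, Finset.card_univ, Fintype.card_fin]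
  rw [smul_smul, ← Nat.cast_smul_eq_nsmul ℝ, ← add_smul]
  congr 1
  push_cast
  norm_num

/-- The recursion for (entry at a new index, sum of the entries). -/
noncomputable def st : ℕ → ℝ × ℝ
  | 0 => (1, 20)
  | c + 1 => ((49 * (st c).1 + 3 * (st c).2) / 83, (109 * (st c).2 - 520 * (st c).1) / 83)

/-- Number of indices `< 20` in a list. -/
def cnt {n : ℕ} (l : List (Fin n)) : ℕ := l.countP (fun i : Fin n => decide ((i : ℕ) < 20))

lemma vec_of_list {n : ℕ} (hn : 20 ≤ n) (l : List (Fin n)) (hl : l.Nodup) :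
    (∀ j : Fin 20, Fin.castLE hn j ∉ l → ((l.map (fam n)).prod *ᵥ (fun _ => (1 : ℝ))) j = (st (cnt l)).1) ∧
      ∑ j, ((l.map (fam n)).prod *ᵥ (fun _ => (1 : ℝ))) j = (st (cnt l)).2 := by
  induction l with
  | nil => simp [cnt, st]
  | cons i l ih =>
    obtain ⟨h1, h2⟩ := ih (List.nodup_cons.mp hl).2
    have hi := (List.nodup_cons.mp hl).1
    set w : Fin 20 → ℝ := (l.map (fam n)).prod *ᵥ (fun _ => (1 : ℝ)) with hw
    have e : ((i :: l).map (fam n)).prod *ᵥ (fun _ => (1 : ℝ)) = fam n i *ᵥ w := by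
      rw [List.map_cons, List.prod_cons, ← Matrix.mulVec_mulVec]
    rw [e]
    by_cases hlt : (i : ℕ) < 20
    · have hc : cnt (i :: l) = cnt l + 1 := by
        unfold cnt
        rw [List.countP_cons_of_pos (by simpa using hlt)]
      have hf : fam n i = (1 / 83 : ℝ) • M ⟨i, hlt⟩ := by unfold fam; rw [dif_pos hlt]
      have hwi : w ⟨i, hlt⟩ = (st (cnt l)).1 := by
        apply h1
        exact hi
      have hmv : ∀ j, (fam n i *ᵥ w) j = (1 / 83 : ℝ) * (M ⟨i, hlt⟩ *ᵥ w) j := by
        intro j
        rw [hf, Matrix.smul_mulVec, Pi.smul_apply, smul_eq_mul]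
      rw [hc]
      constructor
      · intro j hj
        rw [List.mem_cons, not_or] at hj
        have hji : j ≠ ⟨i, hlt⟩ := by
          intro h
          apply hj.1
          rw [h]
          rfl
        rw [hmv, M_mulVec, h2, hwi, h1 j hj.2, if_neg hji]
        show _ = (49 * (st (cnt l)).1 + 3 * (st (cnt l)).2) / 83
        ring
      · simp only [hmv, ← Finset.mul_sum, M_mulVec, h2, hwi]
        simp only [Finset.sum_add_distrib, Finset.sum_sub_distrib, ← Finset.mul_sum, ← Finset.sum_mul,
          h2, Finset.sum_ite_eq', Finset.mem_univ, if_true, Finset.sum_const, Finset.card_univ,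
          Fintype.card_fin]
        show _ = (109 * (st (cnt l)).2 - 520 * (st (cnt l)).1) / 83
        simp
        ring
    · have hc : cnt (i :: l) = cnt l := by
        unfold cnt
        rw [List.countP_cons_of_neg (by simpa using hlt)]
      have hf : fam n i = 1 := by unfold fam; rw [dif_neg hlt]
      rw [hc, hf, Matrix.one_mulVec]
      refine ⟨fun j hj => h1 j fun h => hj (List.mem_cons_of_mem _ h), h2⟩

lemma cnt_ofFn {n : ℕ} (hn : 20 ≤ n) (f : Fin n ↪ Fin n) : cnt (List.ofFn f) = 20 := by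
  unfold cnt
  have hperm : (List.ofFn f).Perm (List.finRange n) := by
    apply (List.perm_ext_iff_of_nodup (List.nodup_ofFn.mpr f.injective) (List.nodup_finRange n)).mpr
    intro a
    simp only [List.mem_ofFn, List.mem_finRange, iff_true]
    exact (Finite.injective_iff_surjective.mp f.injective) a
  rw [hperm.countP_eq, List.countP_eq_length_filter]
  have h1 : ((List.finRange n).filter (fun i : Fin n => decide ((i : ℕ) < 20))).length =
      (Finset.univ.filter (fun i : Fin n => (i : ℕ) < 20)).card := by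
    rw [← List.toFinset_card_of_nodup ((List.nodup_finRange n).filter _)]
    congr 1
    ext i
    simp
  rw [h1]
  have h2 : (Finset.univ.filter (fun i : Fin n => (i : ℕ) < 20)) =
      Finset.univ.map (Fin.castLEEmb hn) := by
    ext i
    simp only [Finset.mem_filter, Finset.mem_univ, true_and, Finset.mem_map, Fin.castLEEmb_apply]
    constructor
    · intro h
      exact ⟨⟨i, h⟩, rfl⟩
    · rintro ⟨j, rfl⟩
      exact j.2
  rw [h2, Finset.card_map, Finset.card_univ, Fintype.card_fin]

/-- The recursion `st` without the denominators. -/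
def sti : ℕ → ℤ × ℤ
  | 0 => (1, 20)
  | c + 1 => (49 * (sti c).1 + 3 * (sti c).2, 109 * (sti c).2 - 520 * (sti c).1)

lemma st_eq (c : ℕ) : st c = (((sti c).1 : ℝ) / 83 ^ c, ((sti c).2 : ℝ) / 83 ^ c) := by
  induction c with
  | zero => simp [st, sti]
  | succ c ih =>
    simp only [st, sti, ih]
    push_cast
    rw [Prod.mk.injEq]
    constructor
    · rw [pow_succ]; field_simp
    · rw [pow_succ]; field_simp

lemma sti_val : 20 * 83 ^ 20 < (sti 20).2 := by decide +kernel

lemma st_val : (20 : ℝ) < (st 20).2 := by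
  rw [st_eq]
  rw [lt_div_iff₀ (by positivity)]
  exact_mod_cast sti_val

lemma quad (n : ℕ) (hn : 20 ≤ n) :
    (fun _ => (1 : ℝ)) ⬝ᵥ (S n (fam n) *ᵥ (fun _ => (1 : ℝ))) = (n.factorial : ℝ) * (st 20).2 := by
  unfold S
  rw [Matrix.sum_mulVec, dotProduct_sum]
  have h : ∀ j : Fin n ↪ Fin n, (fun _ => (1 : ℝ)) ⬝ᵥ
      ((List.ofFn fun k : Fin n => fam n (j k)).prod *ᵥ (fun _ => (1 : ℝ))) = (st 20).2 := by
    intro j
    have e : (List.ofFn fun k : Fin n => fam n (j k)) = (List.ofFn j).map (fam n) := by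
      rw [List.map_ofFn]; rfl
    rw [e]
    have h2 := (vec_of_list hn (List.ofFn j) (List.nodup_ofFn.mpr j.injective)).2
    rw [cnt_ofFn hn j] at h2
    rw [← h2]
    simp [dotProduct]
  rw [Finset.sum_congr rfl fun j _ => h j, Finset.sum_const, nsmul_eq_mul]
  congr 2
  rw [Finset.card_univ, Fintype.card_embedding_eq, Fintype.card_fin, Nat.descFactorial_self]

lemma S_isHermitian {n d : ℕ} (m : ℕ) (A : Fin n → Matrix (Fin d) (Fin d) ℝ)
    (hA : ∀ i, (A i).IsHermitian) : (S m A).IsHermitian := by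
  unfold S IsHermitian
  rw [conjTranspose_sum]
  have h : ∀ j : Fin m ↪ Fin n, ((List.ofFn fun k : Fin m => A (j k)).prod)ᴴ =
      (List.ofFn fun k : Fin m => A ((Fin.revPerm.toEmbedding.trans j) k)).prod := by
    intro j
    rw [conjTranspose_list_prod, List.map_ofFn]
    congr 1
    have e : (conjTranspose ∘ fun k : Fin m => A (j k)) = fun k : Fin m => A (j k) := by
      funext k
      exact hA (j k)
    rw [e]
    apply List.ext_getElem
    · simp
    · intro i h1 h2
      rw [List.getElem_reverse, List.getElem_ofFn, List.getElem_ofFn]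
      rw [Function.Embedding.trans_apply]
      congr 2
      apply Fin.ext
      simp only [List.length_ofFn, Equiv.coe_toEmbedding, Fin.revPerm_apply, Fin.val_rev]
      simp at h1
      omega
  rw [Finset.sum_congr rfl fun j _ => h j]
  exact Fintype.sum_equiv (Fin.revPerm.embeddingCongr (Equiv.refl (Fin n))) _ _ (fun j => by
    rfl)

theorem result : ∀ n : ℕ, 20 ≤ n → ∃ A : Fin n → Matrix (Fin 20) (Fin 20) ℝ,
    HypH A ∧ ∃ μ : ℝ, (n.factorial : ℝ) / ((n - n).factorial : ℝ) < μ ∧
      ∃ v : Fin 20 → ℝ, v ≠ 0 ∧ S n A *ᵥ v = μ • v := by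
  intro n hn
  refine ⟨fam n, ⟨fam_posSemidef n, ?_⟩, ?_⟩
  · rw [sum_fam n hn, sub_self]
    exact PosSemidef.zero
  · have hS : (S n (fam n)).IsHermitian := S_isHermitian n _ fun i => (fam_posSemidef n i).1
    have hB : ((n.factorial : ℝ) • (1 : Matrix (Fin 20) (Fin 20) ℝ) - S n (fam n)).IsHermitian := by
      apply IsHermitian.sub _ hS
      unfold IsHermitian
      rw [conjTranspose_smul, conjTranspose_one, star_trivial]
    have hneg : ¬ ((n.factorial : ℝ) • (1 : Matrix (Fin 20) (Fin 20) ℝ) - S n (fam n)).PosSemidef := by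
      intro h
      have h1 := h.dotProduct_mulVec_nonneg (fun _ => (1 : ℝ))
      have h2 : star (fun _ : Fin 20 => (1 : ℝ)) = fun _ => 1 := by
        funext; simp
      rw [h2, sub_mulVec, dotProduct_sub, quad n hn, Matrix.smul_mulVec, Matrix.one_mulVec,
        dotProduct_smul] at h1
      have h3 : (fun _ : Fin 20 => (1 : ℝ)) ⬝ᵥ (fun _ => (1 : ℝ)) = 20 := by
        simp [dotProduct]
      rw [h3, smul_eq_mul] at h1
      have h4 : (0 : ℝ) < n.factorial := by exact_mod_cast Nat.factorial_pos n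
      nlinarith [st_val]
    rw [hB.posSemidef_iff_eigenvalues_nonneg] at hneg
    simp only [Pi.le_def, not_forall, not_le, Pi.zero_apply] at hneg
    obtain ⟨i, hi⟩ := hneg
    refine ⟨n.factorial - hB.eigenvalues i, ?_, (hB.eigenvectorBasis i).ofLp, ?_, ?_⟩
    · simp only [Nat.sub_self, Nat.factorial_zero, Nat.cast_one, div_one]
      linarith
    · intro h
      have h5 := hB.eigenvectorBasis.orthonormal.ne_zero i
      apply h5
      ext k
      exact congrFun h k
    · have h6 := hB.mulVec_eigenvectorBasis i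
      rw [sub_mulVec, Matrix.smul_mulVec, Matrix.one_mulVec] at h6
      rw [sub_smul, ← h6]
      abel

end Pool.Agent.Results.MP_6eb00f_an.UpperHalfFails
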